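import Pool.Agent.Y971.KK.RTop

/-!
# The Ki–Kim question: for every `λ < 0` almost all zeros of `Ξ_λ` are non-real
-/

set_option autoImplicit false

namespace Pool.Agent.Results.MP_023270_nt.AlmostNoneReal

open Filter Topology MeasureTheory

/-- The kernel `Φ(t) = 2 ∑_{n ≥ 1} (2π²n⁴e^{9t/2} - 3πn²e^{5t/2}) e^{-πn²e^{2t}}`. -/
noncomputable def Phi (t : ℝ) : ℝ :=
  2 * ∑' n : ℕ+, (2 * Real.pi ^ 2 * (n : ℝ) ^ 4 * Real.exp (9 * t / 2) -
    3 * Real.pi * (n : ℝ) ^ 2 * Real.exp (5 * t / 2)) *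
      Real.exp (-(Real.pi * (n : ℝ) ^ 2 * Real.exp (2 * t)))

/-- The entire function `Ξ_λ(z) = ∫_{-∞}^{∞} Φ(t) e^{λt²} e^{izt} dt`. -/
noncomputable def Xi (lam : ℝ) (z : ℂ) : ℂ :=
  ∫ t : ℝ, ((Phi t : ℝ) : ℂ) * Complex.exp ((lam : ℂ) * (t : ℂ) ^ 2) *
    Complex.exp (Complex.I * z * (t : ℂ))

/-- The number of zeros of `f` in `S`, counted with multiplicity (an element of `[0, ∞]`):
the sum over the points of `S` of the order of vanishing of `f`. -/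
noncomputable def zeroCount (f : ℂ → ℂ) (S : Set ℂ) : ENNReal :=
  ∑' z : S, ((analyticOrderAt f (z : ℂ) : ℕ∞) : ENNReal)

lemma Phi_eq (t : ℝ) : Phi t = Pool.Agent.Helper242.KK.Ph t := by
  unfold Phi Pool.Agent.Helper242.KK.Ph Pool.Agent.Helper242.RK.Phi
  congr 1
  rw [tsum_pnat_eq_tsum_succ (f := fun n : ℕ => (2 * Real.pi ^ 2 * (n : ℝ) ^ 4 *
    Real.exp (9 * t / 2) - 3 * Real.pi * (n : ℝ) ^ 2 * Real.exp (5 * t / 2)) *
      Real.exp (-(Real.pi * (n : ℝ) ^ 2 * Real.exp (2 * t))))]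
  refine tsum_congr fun n => ?_
  push_cast
  rw [show 9 * (t / 2) = 9 * t / 2 by ring, show 5 * (t / 2) = 5 * t / 2 by ring,
    show 4 * (t / 2) = 2 * t by ring]
  ring_nf

lemma Xi_eq (lam : ℝ) : Xi lam = Pool.Agent.Helper242.KK.XiM (-lam) := by
  funext z
  unfold Xi Pool.Agent.Helper242.KK.XiM Pool.Agent.Helper242.KK.FT Pool.Agent.Helper242.KK.wk
  refine integral_congr_ae (Eventually.of_forall fun t => ?_)
  simp only [Phi_eq]
  push_cast
  rw [neg_neg]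

lemma zeroCount_eq (f : ℂ → ℂ) (S : Set ℂ) :
    zeroCount f S = Pool.Agent.Helper242.KK.zc f S := rfl

/-- **Main theorem.** Let `λ < 0`. Then the proportion
`#{real zeros z, |z| ≤ T} / #{zeros z, |Re z| ≤ T}` of the real zeros of `Ξ_λ` tends to `0` as
`T → ∞`: almost all zeros of `Ξ_λ` are non-real. (The denominator is finite and nonzero for all
large `T`.) -/
theorem result (lam : ℝ) (hlam : lam < 0) :
    (∀ᶠ T : ℝ in atTop, zeroCount (Xi lam) {z | |z.re| ≤ T} ≠ 0 ∧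
      zeroCount (Xi lam) {z | |z.re| ≤ T} ≠ ⊤) ∧
    Tendsto (fun T : ℝ => zeroCount (Xi lam) {z | z.im = 0 ∧ ‖z‖ ≤ T} /
      zeroCount (Xi lam) {z | |z.re| ≤ T}) atTop (𝓝 0) := by
  have hμ : 0 < -lam := by linarith
  rw [Xi_eq]
  refine ⟨?_, Pool.Agent.Y971.KK.tendsto_ratio hμ⟩
  obtain ⟨T₀, hT₀⟩ := Pool.Agent.Y971.KK.many_XiM hμ.le
  filter_upwards [eventually_ge_atTop T₀, eventually_ge_atTop 3] with T h1 h2
  refine ⟨fun h0 => ?_, (Pool.Agent.Y971.KK.zc_strip_lt_top hμ.le T).ne⟩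
  have h3 := hT₀ T h1
  rw [zeroCount_eq] at h0
  rw [h0, nonpos_iff_eq_zero, ENNReal.ofReal_eq_zero] at h3
  have h4 : 0 < Real.log T := Real.log_pos (by linarith)
  have h5 : 0 < T * Real.log T / 3600 := by positivity
  linarith

end Pool.Agent.Results.MP_023270_nt.AlmostNoneReal
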